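import Pool.Agent.Helper12.XG.St

/-!
Project XG (MP_627c93_nt), module PRO: the Schwarz lemma step.
-/

set_option autoImplicit false

namespace Pool.Agent.Helper89.XG

open Finset Polynomial Pool.Agent.Helper12.XG Pool.Agent.Helper14.GS

/-- continuity of `fI` on a half line of positive reals -/
private theorem fI_cont (h q i : ℕ) (β : ℕ → ℕ → ℤ) (a : ℝ) (ha : 1 ≤ a) :
    ContinuousOn (fun x : ℝ => fI h q β i (a + x)) (Set.uIcc 0 1) := by
  unfold fI
  refine continuousOn_finset_sum _ fun j _ => continuousOn_finset_sum _ fun b _ => ?_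
  refine continuousOn_const.mul (ContinuousOn.pow ?_ _)
  refine ContinuousOn.inv₀ (by fun_prop) ?_
  intro x hx
  rw [Set.uIcc_of_le zero_le_one] at hx
  have h1 : (0 : ℝ) ≤ j := Nat.cast_nonneg j
  have h2 : 0 < a + x + j := by linarith [hx.1]
  exact h2.ne'

private theorem ker_cont (q : ℕ) : Continuous fun x : ℝ => x ^ (2 * q) * (1 - x) ^ (2 * q) := by
  fun_prop

private theorem ker_int (h q i : ℕ) (β : ℕ → ℕ → ℤ) (a : ℝ) (ha : 1 ≤ a) (c : ℂ) :
    IntervalIntegrable (fun x : ℝ => c *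
      ((x ^ (2 * q) * (1 - x) ^ (2 * q) * fI h q β i (a + x) : ℝ) : ℂ))
      MeasureTheory.volume 0 1 := by
  refine ContinuousOn.intervalIntegrable ?_
  refine continuousOn_const.mul (Complex.continuous_ofReal.comp_continuousOn ?_)
  exact (ker_cont q).continuousOn.mul (fI_cont h q i β a ha)

/-- the combination of the integrals is bounded by the pointwise bound -/
private theorem comb_bound (h q n : ℕ) (β : ℕ → ℕ → ℤ) (M : ℕ → ℕ) (m : ℕ → ℕ) (γ : ℕ → ℕ → ℂ)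
    (B : ℝ) (hM : ∀ k ∈ range n, 1 ≤ M k)
    (hB : ∀ x : ℝ, 0 ≤ x → x ≤ 1 →
      ‖∑ k ∈ range n, ∑ i ∈ range (m k), γ k i * (fI h q β i ((M k : ℝ) + x) : ℂ)‖ ≤ B) :
    ‖∑ k ∈ range n, ∑ i ∈ range (m k), γ k i * (Phi h q β i (M k) : ℂ)‖ ≤ B := by
  have hint : ∀ k ∈ range n, ∀ i ∈ range (m k), IntervalIntegrable
      (fun x : ℝ => γ k i * ((x ^ (2 * q) * (1 - x) ^ (2 * q) * fI h q β i ((M k : ℝ) + x) : ℝ) : ℂ))
      MeasureTheory.volume 0 1 := by
    intro k hk i _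
    have h1 : (1 : ℝ) ≤ M k := by exact_mod_cast hM k hk
    exact ker_int h q i β (M k) h1 (γ k i)
  have heq : ∑ k ∈ range n, ∑ i ∈ range (m k), γ k i * (Phi h q β i (M k) : ℂ) =
      ∫ x in (0 : ℝ)..1, ∑ k ∈ range n, ∑ i ∈ range (m k),
        γ k i * ((x ^ (2 * q) * (1 - x) ^ (2 * q) * fI h q β i ((M k : ℝ) + x) : ℝ) : ℂ) := by
    rw [intervalIntegral.integral_finset_sum]
    · refine Finset.sum_congr rfl fun k hk => ?_
      rw [intervalIntegral.integral_finset_sum (fun i hi => hint k hk i hi)]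
      refine Finset.sum_congr rfl fun i hi => ?_
      rw [intervalIntegral.integral_const_mul, intervalIntegral.integral_ofReal]
      rfl
    · intro k hk
      have h3 := IntervalIntegrable.sum (range (m k)) (hint k hk)
      have h4 : (fun x : ℝ => ∑ i ∈ range (m k),
          γ k i * ((x ^ (2 * q) * (1 - x) ^ (2 * q) * fI h q β i ((M k : ℝ) + x) : ℝ) : ℂ)) =
          ∑ i ∈ range (m k), fun x : ℝ =>
          γ k i * ((x ^ (2 * q) * (1 - x) ^ (2 * q) * fI h q β i ((M k : ℝ) + x) : ℝ) : ℂ) := by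
        funext x
        rw [Finset.sum_apply]
      rw [h4]
      exact h3
  rw [heq]
  have hbd := intervalIntegral.norm_integral_le_of_norm_le_const (a := (0 : ℝ)) (b := 1) (C := B)
    (f := fun x : ℝ => ∑ k ∈ range n, ∑ i ∈ range (m k),
        γ k i * ((x ^ (2 * q) * (1 - x) ^ (2 * q) * fI h q β i ((M k : ℝ) + x) : ℝ) : ℂ)) (by
      intro x hx
      rw [Set.uIoc_of_le zero_le_one] at hx
      have hx0 : 0 ≤ x := hx.1.le
      have hx1 : 0 ≤ 1 - x := by linarith [hx.2]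
      have h5 : ∑ k ∈ range n, ∑ i ∈ range (m k),
          γ k i * ((x ^ (2 * q) * (1 - x) ^ (2 * q) * fI h q β i ((M k : ℝ) + x) : ℝ) : ℂ) =
          ((x ^ (2 * q) * (1 - x) ^ (2 * q) : ℝ) : ℂ) *
          ∑ k ∈ range n, ∑ i ∈ range (m k), γ k i * (fI h q β i ((M k : ℝ) + x) : ℂ) := by
        rw [Finset.mul_sum]
        refine Finset.sum_congr rfl fun k _ => ?_
        rw [Finset.mul_sum]
        refine Finset.sum_congr rfl fun i _ => ?_
        push_cast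
        ring
      rw [h5, norm_mul, Complex.norm_real, Real.norm_eq_abs]
      have h6 : |x ^ (2 * q) * (1 - x) ^ (2 * q)| ≤ 1 := by
        rw [abs_of_nonneg (by positivity)]
        exact mul_le_one₀ (pow_le_one₀ hx0 hx.2) (by positivity) (pow_le_one₀ hx1 (by linarith))
      calc |x ^ (2 * q) * (1 - x) ^ (2 * q)| * ‖∑ k ∈ range n, ∑ i ∈ range (m k),
            γ k i * (fI h q β i ((M k : ℝ) + x) : ℂ)‖
          ≤ 1 * ‖∑ k ∈ range n, ∑ i ∈ range (m k),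
            γ k i * (fI h q β i ((M k : ℝ) + x) : ℂ)‖ :=
            mul_le_mul_of_nonneg_right h6 (norm_nonneg _)
        _ ≤ B := by
            rw [one_mul]
            exact hB x hx0 hx.2)
  simpa using hbd

/-- size of the rational function -/
private theorem rf_bound (Q q i₀ N j : ℕ) (x : ℝ) (hN : 2 ≤ N) (hx : 0 ≤ x) (z : ℂ)
    (hz : ‖z + (j : ℂ) + (x : ℂ)‖ ≤ (N : ℝ) / 2) :
    ‖RF (Q + 1) (fun k => (N : ℝ) + (k : ℝ) ^ 2) (fun k => if k = 0 then i₀ + 1 else q + 1) 1 z‖ ≤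
      (2 / (N : ℝ)) ^ (Q * (q + 1)) := by
  have hN2 : (2 : ℝ) ≤ N := by exact_mod_cast hN
  have hNpos : (0 : ℝ) < N := by linarith
  have hr1 : (1 : ℝ) ≤ (N : ℝ) / 2 := by linarith
  have hj : (0 : ℝ) ≤ j := Nat.cast_nonneg j
  have hfac : ∀ k : ℕ, (N : ℝ) / 2 ≤ ‖z - (((N : ℝ) + (k : ℝ) ^ 2 : ℝ) : ℂ)‖ := by
    intro k
    have h1 : ((((N : ℝ) + (k : ℝ) ^ 2 + j + x : ℝ)) : ℂ) =
        (z + (j : ℂ) + (x : ℂ)) - (z - (((N : ℝ) + (k : ℝ) ^ 2 : ℝ) : ℂ)) := by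
      push_cast
      ring
    have h2 : ‖((((N : ℝ) + (k : ℝ) ^ 2 + j + x : ℝ)) : ℂ)‖ ≤
        ‖z + (j : ℂ) + (x : ℂ)‖ + ‖z - (((N : ℝ) + (k : ℝ) ^ 2 : ℝ) : ℂ)‖ := by
      rw [h1]
      exact norm_sub_le _ _
    rw [Complex.norm_real, Real.norm_eq_abs, abs_of_nonneg (by positivity)] at h2
    have h3 : (0 : ℝ) ≤ (k : ℝ) ^ 2 := sq_nonneg _
    linarith
  unfold RF
  rw [Polynomial.eval_one, norm_div, norm_one, norm_prod]
  simp only [norm_pow]
  have hlow : ((N : ℝ) / 2) ^ (Q * (q + 1)) ≤ ∏ k ∈ range (Q + 1),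
      ‖z - (((N : ℝ) + (k : ℝ) ^ 2 : ℝ) : ℂ)‖ ^ (if k = 0 then i₀ + 1 else q + 1) := by
    rw [Finset.prod_range_succ']
    have h1 : ((N : ℝ) / 2) ^ (Q * (q + 1)) = ∏ _k ∈ range Q, ((N : ℝ) / 2) ^ (q + 1) := by
      rw [Finset.prod_const, Finset.card_range, ← pow_mul, mul_comm]
    rw [h1]
    have h2 : ∏ _k ∈ range Q, ((N : ℝ) / 2) ^ (q + 1) ≤ ∏ k ∈ range Q,
        ‖z - (((N : ℝ) + (((k + 1 : ℕ)) : ℝ) ^ 2 : ℝ) : ℂ)‖ ^
          (if k + 1 = 0 then i₀ + 1 else q + 1) := by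
      refine Finset.prod_le_prod (fun k _ => by positivity) fun k _ => ?_
      rw [if_neg (Nat.succ_ne_zero k)]
      exact pow_le_pow_left₀ (by positivity) (hfac (k + 1)) _
    have h3 : (1 : ℝ) ≤ ‖z - (((N : ℝ) + (((0 : ℕ)) : ℝ) ^ 2 : ℝ) : ℂ)‖ ^
        (if (0 : ℕ) = 0 then i₀ + 1 else q + 1) := one_le_pow₀ (hr1.trans (hfac 0))
    calc ∏ _k ∈ range Q, ((N : ℝ) / 2) ^ (q + 1)
        = (∏ _k ∈ range Q, ((N : ℝ) / 2) ^ (q + 1)) * 1 := (mul_one _).symm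
      _ ≤ _ := mul_le_mul h2 h3 zero_le_one (Finset.prod_nonneg fun k _ => by positivity)
  have h4 : (2 / (N : ℝ)) ^ (Q * (q + 1)) = 1 / ((N : ℝ) / 2) ^ (Q * (q + 1)) := by
    rw [← one_div_pow]
    congr 1
    rw [one_div_div]
  rw [h4]
  exact one_div_le_one_div_of_le (by positivity) hlow

theorem hPRO (h1 : StGAM) (h2 : StRES) : StPRO := by
  intro h q Q N i₀ β Bd V hβ hQ hN hi₀ hV hlow hhigh
  obtain ⟨γ, hγ1, hγ2, hγ3⟩ := h1 Q q i₀ N hQ hi₀
  have hN2 : (2 : ℝ) ≤ N := by exact_mod_cast hN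
  have hNpos : (0 : ℝ) < N := by linarith
  have hBd : 0 ≤ Bd := (abs_nonneg _).trans (hβ 0 0)
  set S : ℝ := (2 / (N : ℝ)) ^ (Q * (q + 1)) with hS
  have hS0 : 0 ≤ S := by positivity
  set B : ℝ := ((h : ℝ) + 1) * q * Bd * S with hBdef
  -- the pointwise estimate
  have hpt : ∀ x : ℝ, 0 ≤ x → x ≤ 1 →
      ‖∑ k ∈ range (Q + 1), ∑ i ∈ range (if k = 0 then i₀ + 1 else q + 1),
        γ k i * (fI h q β i (((N + k ^ 2 : ℕ) : ℝ) + x) : ℂ)‖ ≤ B := by
    intro x hx0 hx1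
    have h3 := h2 h q (Q + 1) β Bd (fun k => (N : ℝ) + (k : ℝ) ^ 2)
      (fun k => if k = 0 then i₀ + 1 else q + 1) 1 0 γ x ((N : ℝ) / 2) S hβ hx0 (by linarith) hS0
      (fun k _ => by
        have : (0 : ℝ) ≤ (k : ℝ) ^ 2 := sq_nonneg _
        show (N : ℝ) / 2 < (N : ℝ) + (k : ℝ) ^ 2
        linarith) hγ1 (fun j _ z hz => rf_bound Q q i₀ N j x hN hx0 z hz)
    have h4 : (∑ j ∈ range (h + 1), ∑ b ∈ range q,
        (β j b : ℂ) * (hasseDeriv b (0 : ℂ[X])).eval (-(j : ℂ) - (x : ℂ))) = 0 := by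
      refine Finset.sum_eq_zero fun j _ => Finset.sum_eq_zero fun b _ => ?_
      rw [map_zero, Polynomial.eval_zero, mul_zero]
    rw [h4, zero_sub, norm_neg] at h3
    refine le_trans (le_of_eq ?_) h3
    congr 1
    refine Finset.sum_congr rfl fun k _ => Finset.sum_congr rfl fun i _ => ?_
    push_cast
    rfl
  have hint := comb_bound h q (Q + 1) β (fun k => N + k ^ 2)
    (fun k => if k = 0 then i₀ + 1 else q + 1) γ B (fun k _ => by
      show 1 ≤ N + k ^ 2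
      have : 0 ≤ k ^ 2 := Nat.zero_le _
      omega) hpt
  -- isolate the term (0, i₀)
  rw [Finset.sum_range_succ'] at hint
  simp only [if_true, Nat.succ_ne_zero, if_false] at hint
  rw [Finset.sum_range_succ] at hint
  set C : ℝ := (16 * (Q : ℝ) ^ 4) ^ (q + 1) with hC
  have hC0 : 0 ≤ C := by positivity
  set g : ℝ := ‖γ 0 i₀‖ with hg
  have hg0 : 0 ≤ g := norm_nonneg _
  have hb1 : ‖∑ k ∈ range Q, ∑ i ∈ range (q + 1),
      γ (k + 1) i * (Phi h q β i (N + (k + 1) ^ 2) : ℂ)‖ ≤ Q * (q + 1) * (C * g * V) := by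
    refine (norm_sum_le _ _).trans ?_
    have h5 : ∀ k ∈ range Q, ‖∑ i ∈ range (q + 1),
        γ (k + 1) i * (Phi h q β i (N + (k + 1) ^ 2) : ℂ)‖ ≤ (q + 1) * (C * g * V) := by
      intro k hk
      refine (norm_sum_le _ _).trans ?_
      have h6 : ∀ i ∈ range (q + 1), ‖γ (k + 1) i * (Phi h q β i (N + (k + 1) ^ 2) : ℂ)‖ ≤
          C * g * V := by
        intro i hi
        rw [norm_mul, Complex.norm_real, Real.norm_eq_abs]
        have hk' : k < Q := mem_range.1 hk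
        have h7 := hγ3 (k + 1) (mem_range.2 (by omega)) i (by
          rw [if_neg (Nat.succ_ne_zero k)]
          exact hi)
        have h8 := hhigh (k + 1) (by omega) (by omega) i (by
          have := mem_range.1 hi
          omega)
        exact mul_le_mul h7 h8 (abs_nonneg _) (by positivity)
      refine (Finset.sum_le_sum h6).trans (le_of_eq ?_)
      rw [Finset.sum_const, Finset.card_range, nsmul_eq_mul]
      push_cast
      ring
    refine (Finset.sum_le_sum h5).trans (le_of_eq ?_)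
    rw [Finset.sum_const, Finset.card_range, nsmul_eq_mul]
    ring
  have hb2 : ‖∑ i ∈ range i₀, γ 0 i * (Phi h q β i (N + 0 ^ 2) : ℂ)‖ ≤ i₀ * (C * g * V) := by
    refine (norm_sum_le _ _).trans ?_
    have h6 : ∀ i ∈ range i₀, ‖γ 0 i * (Phi h q β i (N + 0 ^ 2) : ℂ)‖ ≤ C * g * V := by
      intro i hi
      have hi' := mem_range.1 hi
      rw [norm_mul, Complex.norm_real, Real.norm_eq_abs]
      have h7 := hγ3 0 (mem_range.2 (by omega)) i (by
        rw [if_pos rfl]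
        exact mem_range.2 (by omega))
      have h8 : |Phi h q β i (N + 0 ^ 2)| ≤ V := hlow i hi'
      exact mul_le_mul h7 h8 (abs_nonneg _) (by positivity)
    refine (Finset.sum_le_sum h6).trans (le_of_eq ?_)
    rw [Finset.sum_const, Finset.card_range, nsmul_eq_mul]
  have hmain : g * |Phi h q β i₀ N| ≤ B + (Q * (q + 1) + i₀) * (C * g * V) := by
    have h9 : ‖γ 0 i₀ * (Phi h q β i₀ (N + 0 ^ 2) : ℂ)‖ = g * |Phi h q β i₀ N| := by
      rw [norm_mul, Complex.norm_real, Real.norm_eq_abs]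
      rfl
    rw [← h9]
    have h10 : γ 0 i₀ * (Phi h q β i₀ (N + 0 ^ 2) : ℂ) =
        (∑ k ∈ range Q, ∑ i ∈ range (q + 1), γ (k + 1) i * (Phi h q β i (N + (k + 1) ^ 2) : ℂ) +
          (∑ i ∈ range i₀, γ 0 i * (Phi h q β i (N + 0 ^ 2) : ℂ) +
            γ 0 i₀ * (Phi h q β i₀ (N + 0 ^ 2) : ℂ))) -
        ∑ k ∈ range Q, ∑ i ∈ range (q + 1), γ (k + 1) i * (Phi h q β i (N + (k + 1) ^ 2) : ℂ) -
        ∑ i ∈ range i₀, γ 0 i * (Phi h q β i (N + 0 ^ 2) : ℂ) := by ring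
    rw [h10]
    refine (norm_sub_le _ _).trans ?_
    refine (add_le_add (norm_sub_le _ _) le_rfl).trans ?_
    linarith [hint, hb1, hb2]
  -- multiply by the factorial
  set Fq : ℝ := ((Q.factorial : ℝ)) ^ (2 * (q + 1)) with hFq
  have hFq0 : 0 ≤ Fq := by positivity
  have hstep := mul_le_mul_of_nonneg_right hmain hFq0
  have e1 : g * |Phi h q β i₀ N| * Fq = |Phi h q β i₀ N| := by
    rw [mul_assoc, mul_comm (|Phi h q β i₀ N|), ← mul_assoc, hγ2, one_mul]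
  have e2 : (B + (Q * (q + 1) + i₀) * (C * g * V)) * Fq =
      B * Fq + (Q * (q + 1) + i₀) * (C * V) := by
    have : (C * g * V) * Fq = C * V * (g * Fq) := by ring
    rw [add_mul, mul_assoc _ (C * g * V) Fq, this, hγ2, mul_one]
  rw [e1, e2] at hstep
  have hi₀' : (i₀ : ℝ) ≤ q := by exact_mod_cast hi₀
  have e3 : ((Q : ℝ) * (q + 1) + i₀) * (C * V) ≤ ((Q : ℝ) + 1) * (q + 1) * (C * V) := by
    refine mul_le_mul_of_nonneg_right ?_ (by positivity)
    nlinarith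
  have e4 : S * Fq ≤ (2 * (Q : ℝ) ^ 2 / N) ^ (Q * (q + 1)) := by
    have h11 : (Q.factorial : ℝ) ≤ (Q : ℝ) ^ Q := by exact_mod_cast Nat.factorial_le_pow Q
    have h12 : Fq ≤ ((Q : ℝ) ^ Q) ^ (2 * (q + 1)) := pow_le_pow_left₀ (by positivity) h11 _
    calc S * Fq ≤ S * ((Q : ℝ) ^ Q) ^ (2 * (q + 1)) := mul_le_mul_of_nonneg_left h12 hS0
      _ = (2 * (Q : ℝ) ^ 2 / N) ^ (Q * (q + 1)) := by
        rw [hS, ← pow_mul]
        have h13 : (Q : ℝ) ^ (Q * (2 * (q + 1))) = ((Q : ℝ) ^ 2) ^ (Q * (q + 1)) := by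
          rw [← pow_mul]
          congr 1
          ring
        rw [h13, ← mul_pow]
        congr 1
        ring
  have e5 : B * Fq ≤ ((h : ℝ) + 1) * q * Bd * (2 * (Q : ℝ) ^ 2 / N) ^ (Q * (q + 1)) := by
    rw [hBdef, mul_assoc _ S Fq]
    exact mul_le_mul_of_nonneg_left e4 (by positivity)
  calc |Phi h q β i₀ N| ≤ B * Fq + (Q * (q + 1) + i₀) * (C * V) := hstep
    _ ≤ ((h : ℝ) + 1) * q * Bd * (2 * (Q : ℝ) ^ 2 / N) ^ (Q * (q + 1)) +
        ((Q : ℝ) + 1) * (q + 1) * (C * V) := add_le_add e5 e3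
    _ = _ := by ring

end Pool.Agent.Helper89.XG
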